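import Pool.Agent.Work.MP_6f78fb_rk.Interface

/-! Block ALT (MP_6f78fb_rk): alternating cubes and harmonic functions on injections. -/

set_option autoImplicit false
set_option linter.unusedSectionVars false

open scoped BigOperators
open Classical

noncomputable section

namespace Pool.RookLC.helper66

section

variable {U X : Type} [Fintype U] [Fintype X] [DecidableEq U]

/-- multilinear extension of `g` -/
def G (g : (U → X) → ℂ) (t : U → X → ℂ) : ℂ := ∑ w, g w * ∏ u, t u (w u)

theorem prod_upd (t : U → X → ℂ) (a : U) (s : X → ℂ) (w : U → X) :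
    ∏ u, Function.update t a s u (w u) = s (w a) * ∏ u ∈ Finset.univ \ {a}, t u (w u) := by
  have h : (fun u => Function.update t a s u (w u)) =
      Function.update (fun u => t u (w u)) a (s (w a)) := by
    funext u
    by_cases hu : u = a
    · subst hu; simp
    · simp [hu]
  rw [h, Finset.prod_update_of_mem (Finset.mem_univ a)]

theorem G_add (g : (U → X) → ℂ) (t : U → X → ℂ) (a : U) (s1 s2 : X → ℂ) :
    G g (Function.update t a (s1 + s2)) =
      G g (Function.update t a s1) + G g (Function.update t a s2) := by
  unfold G
  rw [← Finset.sum_add_distrib]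
  refine Finset.sum_congr rfl fun w _ => ?_
  rw [prod_upd, prod_upd, prod_upd, Pi.add_apply]
  ring

theorem sum_upd (h : (U → X) → ℂ) (a : U) :
    ∑ w : U → X, ∑ y : X, h (Function.update w a y) = Fintype.card X * ∑ w, h w := by
  let e : ((U → X) × X) → ((U → X) × X) := fun p => (Function.update p.1 a p.2, p.1 a)
  have he : Function.Involutive e := by
    rintro ⟨w, y⟩
    simp [e]
  rw [← Fintype.sum_prod_type' (fun w y => h (Function.update w a y))]
  have h1 : ∑ p : (U → X) × X, h (Function.update p.1 a p.2) =
      ∑ p : (U → X) × X, h p.1 := by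
    rw [← Equiv.sum_comp he.toPerm (fun p : (U → X) × X => h p.1)]
    rfl
  rw [h1, Fintype.sum_prod_type]
  simp [Finset.mul_sum]

theorem G_one (g : (U → X) → ℂ) (hh : ∀ x a, ∑ y, g (Function.update x a y) = 0)
    (hX : 0 < Fintype.card X) (t : U → X → ℂ) (a : U) :
    G g (Function.update t a 1) = 0 := by
  have h1 := sum_upd (fun w => g w * ∏ u ∈ Finset.univ \ {a}, t u (w u)) a
  have h2 : ∀ w : U → X, ∑ y : X, (g (Function.update w a y) *
      ∏ u ∈ Finset.univ \ {a}, t u (Function.update w a y u)) = 0 := by
    intro w
    have h3 : ∀ y : X, ∏ u ∈ Finset.univ \ {a}, t u (Function.update w a y u) =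
        ∏ u ∈ Finset.univ \ {a}, t u (w u) := by
      intro y
      refine Finset.prod_congr rfl fun u hu => ?_
      have : u ≠ a := by simpa using hu
      rw [Function.update_of_ne this]
    simp only [h3]
    rw [← Finset.sum_mul, hh, zero_mul]
  simp only [h2, Finset.sum_const_zero] at h1
  have h4 : (Fintype.card X : ℂ) ≠ 0 := by
    exact_mod_cast hX.ne'
  have h5 := (mul_eq_zero.1 h1.symm).resolve_left h4
  rw [← h5]
  unfold G
  refine Finset.sum_congr rfl fun w _ => ?_
  rw [prod_upd]
  simp

/-- the functions `t` of the proof -/
def tt (x : U → X) (K K2 : Finset U) : U → X → ℂ := fun u p =>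
  if u ∈ K2 then (if p ∈ Finset.univ.image x then 0 else 1)
  else if u ∈ K then (if p ∈ K.image x then 1 else 0)
  else if p = x u then 1 else 0

theorem G_step (g : (U → X) → ℂ) (hg : ∀ x, g x ≠ 0 → Function.Injective x)
    (hh : ∀ x a, ∑ y, g (Function.update x a y) = 0)
    (hX : 0 < Fintype.card X) (x : U → X) (hx : Function.Injective x) (K K2 : Finset U)
    (h : K2 ⊆ K) (a : U) (ha : a ∈ K) (ha2 : a ∉ K2) :
    G g (tt x K (insert a K2)) = - G g (tt x K K2) := by
  have e1 : tt x K (insert a K2) = Function.update (tt x K K2) a
      (fun p => if p ∈ Finset.univ.image x then 0 else 1) := by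
    funext u p
    by_cases hu : u = a
    · subst hu; simp [tt]
    · simp [tt, hu]
  have e2 : tt x K K2 = Function.update (tt x K K2) a
      (fun p => if p ∈ K.image x then 1 else 0) := by
    funext u p
    by_cases hu : u = a
    · subst hu; simp [tt, ha2, ha]
    · simp [hu]
  have e3 : (1 : X → ℂ) = (fun p => if p ∈ Finset.univ.image x then 0 else 1) +
      ((fun p => if p ∈ K.image x then 1 else 0) +
        (fun p => if p ∈ Kᶜ.image x then 1 else 0)) := by
    funext p
    simp only [Pi.one_apply, Pi.add_apply]
    by_cases h1 : p ∈ Finset.univ.image x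
    · obtain ⟨u, -, hu⟩ := Finset.mem_image.1 h1
      subst hu
      have h2 : x u ∈ K.image x ↔ u ∈ K := by
        simp [hx.eq_iff]
      have h3 : x u ∈ Kᶜ.image x ↔ u ∉ K := by
        simp [hx.eq_iff]
      simp only [h1, h2, h3]
      by_cases hu : u ∈ K <;> simp [hu]
    · have h2 : p ∉ K.image x := fun h2 => h1 (Finset.image_subset_image (Finset.subset_univ _) h2)
      have h3 : p ∉ Kᶜ.image x :=
        fun h2 => h1 (Finset.image_subset_image (Finset.subset_univ _) h2)
      simp [h1, h2, h3]
  have h0 := G_one g hh hX (tt x K K2) a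
  have h4 : G g (Function.update (tt x K K2) a (fun p => if p ∈ Kᶜ.image x then 1 else 0)) = 0 := by
    unfold G
    refine Finset.sum_eq_zero fun w _ => ?_
    by_cases hw : g w = 0
    · rw [hw, zero_mul]
    · have hinj := hg w hw
      rw [prod_upd]
      by_cases hwa : w a ∈ Kᶜ.image x
      · obtain ⟨u, hu, hxu⟩ := Finset.mem_image.1 hwa
        have huK : u ∉ K := by simpa using hu
        have hua : u ≠ a := fun h => huK (h ▸ ha)
        have hz : tt x K K2 u (w u) = 0 := by
          have hu2 : u ∉ K2 := fun h' => huK (h h')
          simp only [tt, hu2, huK, if_false]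
          rw [if_neg]
          intro h5
          exact hua (hinj (h5.trans hxu))
        rw [Finset.prod_eq_zero (i := u) (by simp [hua]) hz]
        simp
      · simp only [hwa, if_false, zero_mul, mul_zero]
  rw [e3, G_add, G_add, h4, add_zero, ← e1, ← e2] at h0
  exact eq_neg_of_add_eq_zero_left h0

theorem G_all (g : (U → X) → ℂ) (hg : ∀ x, g x ≠ 0 → Function.Injective x)
    (hh : ∀ x a, ∑ y, g (Function.update x a y) = 0)
    (hX : 0 < Fintype.card X) (x : U → X) (hx : Function.Injective x) (K : Finset U) :
    ∀ K2 : Finset U, K2 ⊆ K → G g (tt x K K2) = (-1) ^ K2.card * G g (tt x K ∅) := by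
  intro K2
  induction K2 using Finset.induction_on with
  | empty => intro _; simp
  | insert a K2 ha ih =>
    intro h
    have h1 := ih ((Finset.subset_insert _ _).trans h)
    rw [G_step g hg hh hX x hx K K2 ((Finset.subset_insert _ _).trans h) a
      (h (Finset.mem_insert_self _ _)) ha, h1, Finset.card_insert_of_notMem ha, pow_succ]
    ring

/-- number of injective extensions -/
theorem count_ext (M n : ℕ) : ∃ c : ℕ, (Fintype.card U ≤ M → 0 < c) ∧
    ∀ (N : Finset X), N.card = M →
    ∀ (K : Finset U), Kᶜ.card = n → ∀ w : U → X, Set.InjOn w K → (∀ u ∈ K, w u ∈ N) →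
    (Finset.univ.filter (fun y : U → X => (∀ u ∈ K, y u = w u) ∧ Function.Injective y ∧
      ∀ u, y u ∈ N)).card = c := by
  induction n with
  | zero =>
    refine ⟨1, fun _ => one_pos, ?_⟩
    intro N _ K hK w hw hN
    have hK' : K = Finset.univ := by
      rw [Finset.card_eq_zero] at hK
      rw [← compl_compl K, hK]; simp
    subst hK'
    rw [Finset.card_eq_one]
    refine ⟨w, ?_⟩
    ext y
    simp only [Finset.mem_filter, Finset.mem_univ, true_and, Finset.mem_singleton]
    constructor
    · rintro ⟨h1, -, -⟩
      funext u
      exact h1 u trivial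
    · rintro rfl
      refine ⟨fun _ _ => rfl, ?_, fun u => hN u (Finset.mem_univ u)⟩
      intro a b hab
      exact hw (by simp) (by simp) hab
  | succ n ih =>
    obtain ⟨c, hc0, hc⟩ := ih
    by_cases hn : n + 1 ≤ Fintype.card U
    swap
    · refine ⟨1, fun _ => one_pos, ?_⟩
      intro N _ K hK
      have := Finset.card_le_univ Kᶜ
      omega
    refine ⟨(M - (Fintype.card U - (n + 1))) * c, ?_, ?_⟩
    · intro h
      exact Nat.mul_pos (by omega) (hc0 h)
    · intro N hNM K hK w hw hN
      subst hNM
      have hKc : K.card = Fintype.card U - (n + 1) := by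
        have := Finset.card_compl_add_card K
        omega
      obtain ⟨a, ha⟩ : Kᶜ.Nonempty := by
        rw [← Finset.card_pos]; omega
      have haK : a ∉ K := by simpa using ha
      set F := Finset.univ.filter (fun y : U → X => (∀ u ∈ K, y u = w u) ∧ Function.Injective y ∧
        ∀ u, y u ∈ N) with hF
      have hmaps : ∀ y ∈ F, y a ∈ N \ K.image w := by
        intro y hy
        simp only [hF, Finset.mem_filter, Finset.mem_univ, true_and] at hy
        obtain ⟨h1, h2, h3⟩ := hy
        rw [Finset.mem_sdiff]
        refine ⟨h3 a, ?_⟩
        intro h4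
        obtain ⟨u, hu, hwu⟩ := Finset.mem_image.1 h4
        rw [← h1 u hu] at hwu
        exact haK (h2 hwu ▸ hu)
      rw [Finset.card_eq_sum_card_fiberwise hmaps]
      have hcard : (N \ K.image w).card = N.card - (Fintype.card U - (n + 1)) := by
        rw [Finset.card_sdiff_of_subset, Finset.card_image_of_injOn hw, hKc]
        intro p hp
        obtain ⟨u, hu, rfl⟩ := Finset.mem_image.1 hp
        exact hN u hu
      rw [← hcard, ← smul_eq_mul, ← Finset.sum_const]
      refine Finset.sum_congr rfl fun p hp => ?_
      rw [Finset.mem_sdiff] at hp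
      have h5 := hc N rfl (insert a K) (by
        rw [Finset.card_compl, Finset.card_insert_of_notMem haK]
        omega) (Function.update w a p) (by
          intro u hu v hv huv
          simp only [Finset.coe_insert, Set.mem_insert_iff, Finset.mem_coe] at hu hv
          by_cases hua : u = a
          · by_cases hva : v = a
            · rw [hua, hva]
            · exfalso
              have hv' : v ∈ K := hv.resolve_left hva
              subst hua
              rw [Function.update_self, Function.update_of_ne hva] at huv
              exact hp.2 (huv ▸ Finset.mem_image_of_mem w hv')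
          · have hu' : u ∈ K := hu.resolve_left hua
            by_cases hva : v = a
            · exfalso
              subst hva
              rw [Function.update_self, Function.update_of_ne hua] at huv
              exact hp.2 (huv ▸ Finset.mem_image_of_mem w hu')
            · have hv' : v ∈ K := hv.resolve_left hva
              rw [Function.update_of_ne hva, Function.update_of_ne hua] at huv
              exact hw hu' hv' huv) (by
          intro u hu
          by_cases hua : u = a
          · subst hua; rw [Function.update_self]; exact hp.1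
          · rw [Function.update_of_ne hua]
            exact hN u ((Finset.mem_insert.1 hu).resolve_left hua))
      rw [← h5]
      congr 1
      ext y
      simp only [hF, Finset.mem_filter, Finset.mem_univ, true_and, Finset.mem_insert,
        forall_eq_or_imp, Function.update_self]
      constructor
      · rintro ⟨⟨h1, h2, h3⟩, h4⟩
        refine ⟨⟨h4, ?_⟩, h2, h3⟩
        intro u hu
        rw [Function.update_of_ne (ne_of_mem_of_not_mem hu haK)]
        exact h1 u hu
      · rintro ⟨⟨h4, h1⟩, h2, h3⟩
        refine ⟨⟨?_, h2, h3⟩, h4⟩
        intro u hu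
        have := h1 u hu
        rwa [Function.update_of_ne (ne_of_mem_of_not_mem hu haK)] at this

end

/-- positivity of the averages over the classes of an equivalence relation -/
theorem pos_classes {Ω Q : Type} [Fintype Ω] [DecidableEq Q] (q : Ω → Q) (g : Ω → ℂ) :
    0 ≤ (∑ x, (starRingEnd ℂ) (g x) * ∑ w, g w * (if q w = q x then 1 else 0)).re := by
  have h1 : ∑ x, (starRingEnd ℂ) (g x) * ∑ w, g w * (if q w = q x then 1 else 0) =
      ∑ c ∈ Finset.univ.image q, (starRingEnd ℂ) (∑ x ∈ Finset.univ.filter (fun x => q x = c), g x)
        * (∑ x ∈ Finset.univ.filter (fun x => q x = c), g x) := by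
    rw [← Finset.sum_fiberwise_of_maps_to (s := Finset.univ) (t := Finset.univ.image q) (g := q)
      (fun x _ => Finset.mem_image_of_mem q (Finset.mem_univ x))]
    refine Finset.sum_congr rfl fun c _ => ?_
    rw [map_sum, Finset.sum_mul]
    refine Finset.sum_congr rfl fun x hx => ?_
    have hxc : q x = c := (Finset.mem_filter.1 hx).2
    congr 1
    rw [Finset.sum_filter]
    refine Finset.sum_congr rfl fun w _ => ?_
    rw [hxc]
    split_ifs <;> simp
  rw [h1, Complex.re_sum]
  refine Finset.sum_nonneg fun c _ => ?_
  rw [mul_comm, Complex.mul_conj]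
  simp only [Complex.ofReal_re]
  exact Complex.normSq_nonneg _

/-- the map to the classes -/
def qq {U X : Type} [DecidableEq U] (K : Finset U) (w : U → X) : (U → Option X) × Finset X :=
  (fun u => if u ∈ K then none else some (w u), K.image w)

theorem G_classes {U X : Type} [Fintype U] [Fintype X] [DecidableEq U] (g : (U → X) → ℂ)
    (hg : ∀ x, g x ≠ 0 → Function.Injective x) (x : U → X) (hx : Function.Injective x)
    (K : Finset U) :
    G g (tt x K ∅) = ∑ w, g w * (if qq K w = qq K x then 1 else 0) := by
  unfold G
  refine Finset.sum_congr rfl fun w _ => ?_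
  by_cases hw : g w = 0
  · rw [hw, zero_mul, zero_mul]
  have hinj := hg w hw
  congr 1
  by_cases hq : qq K w = qq K x
  · rw [if_pos hq]
    refine Finset.prod_eq_one fun u _ => ?_
    simp only [qq, Prod.mk.injEq] at hq
    by_cases hu : u ∈ K
    · have : w u ∈ K.image x := hq.2 ▸ Finset.mem_image_of_mem w hu
      simp [tt, hu] at this ⊢
      exact this
    · have := congrFun hq.1 u
      simp only [hu, if_false, Option.some.injEq] at this
      simp [tt, hu, this]
  · rw [if_neg hq]
    by_contra hne
    apply hq
    have h1 : ∀ u, tt x K ∅ u (w u) ≠ 0 := fun u h0 =>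
      hne (Finset.prod_eq_zero (Finset.mem_univ u) h0)
    simp only [qq, Prod.mk.injEq]
    constructor
    · funext u
      by_cases hu : u ∈ K
      · simp [hu]
      · have := h1 u
        simp only [tt, Finset.notMem_empty, if_false, hu] at this
        have h2 : w u = x u := by
          by_contra h3
          rw [if_neg h3] at this
          exact this rfl
        simp [hu, h2]
    · refine Finset.eq_of_subset_of_card_le ?_ ?_
      · intro p hp
        obtain ⟨u, hu, rfl⟩ := Finset.mem_image.1 hp
        by_contra h3
        have := h1 u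
        simp only [tt, Finset.notMem_empty, if_false, hu, if_true, if_neg h3] at this
        exact this rfl
      · rw [Finset.card_image_of_injective _ hx, Finset.card_image_of_injective _ hinj]

theorem stmt_ALT : Stmt_ALT := by
  intro U X _ _ _ g hg hh hcard halt
  by_cases hU : Nonempty U
  swap
  · -- no labels: the cube is `g` itself
    rw [not_nonempty_iff] at hU
    funext x
    have h1 := halt x x (by intro a; exact isEmptyElim (α := U) (Sum.elim id id a))
    have h2 : (Finset.univ : Finset (Finset U)) = {∅} := by
      ext s
      simp only [Finset.mem_univ, Finset.mem_singleton, true_iff]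
      exact Finset.eq_empty_of_isEmpty s
    rw [h2] at h1
    simpa using h1
  have hUpos : 0 < Fintype.card U := Fintype.card_pos
  have hX : 0 < Fintype.card X := by omega
  choose c hc0 hc using fun n => count_ext (U := U) (X := X) (Fintype.card X - Fintype.card U) n
  -- the averaged identity
  have hav : ∀ x : U → X, Function.Injective x →
      ∑ K : Finset U, (c Kᶜ.card : ℂ) * G g (tt x K ∅) = 0 := by
    intro x hx
    set N := (Finset.univ.image x)ᶜ with hN
    have hNc : N.card = Fintype.card X - Fintype.card U := by
      rw [hN, Finset.card_compl, Finset.card_image_of_injective _ hx, Finset.card_univ]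
    set Y := Finset.univ.filter (fun y : U → X => Function.Injective y ∧ ∀ u, y u ∈ N) with hY
    have h1 : ∑ y ∈ Y, ∑ K : Finset U, (-1 : ℂ) ^ K.card *
        g (fun u => if u ∈ K then y u else x u) = 0 := by
      refine Finset.sum_eq_zero fun y hy => halt x y ?_
      obtain ⟨-, hy1, hy2⟩ := Finset.mem_filter.1 hy
      rw [Sum.elim_injective]
      refine ⟨hx, hy1, ?_⟩
      intro a b hab
      have := hy2 b
      rw [← hab, hN, Finset.mem_compl] at this
      exact this (Finset.mem_image_of_mem x (Finset.mem_univ a))
    rw [Finset.sum_comm] at h1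
    rw [← h1]
    refine Finset.sum_congr rfl fun K _ => ?_
    rw [← Finset.mul_sum]
    have h2 : ∑ y ∈ Y, g (fun u => if u ∈ K then y u else x u) =
        (c Kᶜ.card : ℂ) * G g (tt x K K) := by
      rw [← Finset.sum_fiberwise_of_maps_to (s := Y) (t := (Finset.univ : Finset (U → X)))
        (g := fun y u => if u ∈ K then y u else x u) (fun y _ => Finset.mem_univ _)]
      unfold G
      rw [Finset.mul_sum]
      refine Finset.sum_congr rfl fun w _ => ?_
      have h3 : ∑ y ∈ Y with (fun u => if u ∈ K then y u else x u) = w,
          g (fun u => if u ∈ K then y u else x u) =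
          ∑ y ∈ Y with (fun u => if u ∈ K then y u else x u) = w, g w := by
        refine Finset.sum_congr rfl fun y hy => ?_
        rw [(Finset.mem_filter.1 hy).2]
      rw [h3, Finset.sum_const, nsmul_eq_mul]
      by_cases hw : g w = 0
      · rw [hw]; ring
      have hinj := hg w hw
      have h4 : ((Y.filter (fun y => (fun u => if u ∈ K then y u else x u) = w)).card : ℂ) =
          (c Kᶜ.card : ℂ) * ∏ u, tt x K K u (w u) := by
        by_cases hA : (∀ u ∉ K, w u = x u) ∧ ∀ u ∈ K, w u ∈ N
        · have h5 : ∏ u, tt x K K u (w u) = 1 := by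
            refine Finset.prod_eq_one fun u _ => ?_
            by_cases hu : u ∈ K
            · have := hA.2 u hu
              rw [hN, Finset.mem_compl] at this
              simp only [tt, hu, if_true, if_neg this]
            · simp [tt, hu, hA.1 u hu]
          rw [h5, mul_one]
          congr 1
          rw [← hc Kᶜ.card N hNc K rfl w hinj.injOn hA.2]
          congr 1
          ext y
          simp only [hY, Finset.mem_filter, Finset.mem_univ, true_and]
          constructor
          · rintro ⟨⟨h6, h7⟩, h8⟩
            refine ⟨fun u hu => ?_, h6, h7⟩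
            have := congrFun h8 u
            simpa [hu] using this
          · rintro ⟨h8, h6, h7⟩
            refine ⟨⟨h6, h7⟩, ?_⟩
            funext u
            by_cases hu : u ∈ K
            · simp [hu, h8 u hu]
            · simp [hu, hA.1 u hu]
        · have h5 : ∏ u, tt x K K u (w u) = 0 := by
            by_contra hne
            have h6 : ∀ u, tt x K K u (w u) ≠ 0 := fun u h0 =>
              hne (Finset.prod_eq_zero (Finset.mem_univ u) h0)
            apply hA
            refine ⟨fun u hu => ?_, fun u hu => ?_⟩
            · by_contra h7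
              exact h6 u (by simp [tt, hu, h7])
            · by_contra h7
              rw [hN, Finset.mem_compl, not_not] at h7
              exact h6 u (by simp only [tt, hu, if_true, if_pos h7])
          rw [h5, mul_zero]
          rw [Nat.cast_eq_zero, Finset.card_eq_zero, Finset.filter_eq_empty_iff]
          intro y hy h8
          apply hA
          obtain ⟨-, -, hy2⟩ := Finset.mem_filter.1 hy
          subst h8
          refine ⟨fun u hu => by simp [hu], fun u hu => ?_⟩
          simp only [hu, if_true]
          exact hy2 u
      rw [h4]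
      ring
    rw [h2, G_all g hg hh hX x hx K K (Finset.Subset.refl K)]
    have h9 : ((-1 : ℂ) ^ K.card) * (-1) ^ K.card = 1 := by
      rw [← pow_add, ← two_mul, pow_mul]; simp
    calc (c Kᶜ.card : ℂ) * G g (tt x K ∅)
        = (((-1 : ℂ) ^ K.card) * (-1) ^ K.card) * ((c Kᶜ.card : ℂ) * G g (tt x K ∅)) := by
          rw [h9, one_mul]
      _ = _ := by ring
  -- positivity
  set r : Finset U → ℂ := fun K =>
    ∑ x, (starRingEnd ℂ) (g x) * ∑ w, g w * (if qq K w = qq K x then 1 else 0) with hr
  have htot : ∑ K : Finset U, (c Kᶜ.card : ℂ) * r K = 0 := by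
    have h1 : ∑ x, (starRingEnd ℂ) (g x) * ∑ K : Finset U, (c Kᶜ.card : ℂ) *
        ∑ w, g w * (if qq K w = qq K x then 1 else 0) = 0 := by
      refine Finset.sum_eq_zero fun x _ => ?_
      by_cases hx0 : g x = 0
      · rw [hx0, map_zero, zero_mul]
      · have hx := hg x hx0
        have h2 := hav x hx
        simp only [G_classes g hg x hx] at h2
        rw [h2, mul_zero]
    rw [← h1]
    simp only [hr, Finset.mul_sum]
    rw [Finset.sum_comm]
    refine Finset.sum_congr rfl fun x _ => Finset.sum_congr rfl fun K _ =>
      Finset.sum_congr rfl fun w _ => ?_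
    ring
  have hre : ∑ K : Finset U, (c Kᶜ.card : ℝ) * (r K).re = 0 := by
    have := congrArg Complex.re htot
    rw [Complex.re_sum] at this
    simpa using this
  have hnn : ∀ K ∈ (Finset.univ : Finset (Finset U)), 0 ≤ (c Kᶜ.card : ℝ) * (r K).re :=
    fun K _ => mul_nonneg (Nat.cast_nonneg _) (pos_classes (qq K) g)
  have h0 := (Finset.sum_eq_zero_iff_of_nonneg hnn).1 hre ∅ (Finset.mem_univ _)
  have hc1 : 0 < c (∅ : Finset U)ᶜ.card := hc0 _ (by omega)
  have hr0 : (r ∅).re = 0 := by
    rcases mul_eq_zero.1 h0 with h1 | h1
    · exact absurd h1 (by exact_mod_cast hc1.ne')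
    · exact h1
  have hr1 : r ∅ = ∑ x, (starRingEnd ℂ) (g x) * g x := by
    simp only [hr]
    refine Finset.sum_congr rfl fun x _ => ?_
    congr 1
    have : ∀ w : U → X, (qq ∅ w = qq ∅ x) ↔ w = x := by
      intro w
      constructor
      · intro h
        funext u
        have := congrFun (congrArg Prod.fst h) u
        simpa [qq] using this
      · rintro rfl; rfl
    simp [this]
  rw [hr1, Complex.re_sum] at hr0
  have hnn2 : ∀ x ∈ (Finset.univ : Finset (U → X)), 0 ≤ ((starRingEnd ℂ) (g x) * g x).re := by
    intro x _
    rw [mul_comm, Complex.mul_conj]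
    exact Complex.normSq_nonneg _
  funext x
  have h1 := (Finset.sum_eq_zero_iff_of_nonneg hnn2).1 hr0 x (Finset.mem_univ _)
  rw [mul_comm, Complex.mul_conj] at h1
  exact Complex.normSq_eq_zero.1 h1

end Pool.RookLC.helper66
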