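import Pool.Agent.Work.MP_6f78fb_rk.Interface

/-! Block CHAIN (MP_6f78fb_rk). -/

set_option autoImplicit false

open scoped BigOperators
open Classical

noncomputable section

namespace Pool.RookLC.helper66

variable {Ω K : Type} [Fintype Ω] (S : FS Ω K)

/-- the component of `f` on which `Hh (1, 1) = r` -/
def cp (f : Ω → ℂ) (r : ℤ) : Ω → ℂ := fun ω => if S.Hh (1, 1) ω = r then f ω else 0

omit [Fintype Ω] in
theorem cp_Op_other
    (h5 : ∀ v ω κ, v ≠ 0 → κ ∈ S.comps ω → S.ch κ ω = -v →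
      S.Tot (S.fl κ ω) = S.Tot ω + 2 • v ∧ S.Hh v (S.fl κ ω) = S.Hh v ω + 2 ∧
      ∀ w, w ≠ v → w ≠ -v → S.Hh w (S.fl κ ω) = S.Hh w ω)
    (v : ℤ × ℤ) (hv : v ≠ 0) (hv1 : (1, 1) ≠ v) (hv2 : (1, 1) ≠ -v) (f : Ω → ℂ) (r : ℤ) :
    S.Op v (cp S f r) = cp S (S.Op v f) r := by
  funext ω
  simp only [FS.Op, LinearMap.coe_mk, AddHom.coe_mk, cp]
  split_ifs with h
  · refine Finset.sum_congr rfl fun κ hκ => ?_
    obtain ⟨h1, h2⟩ := Finset.mem_filter.1 hκ
    rw [if_pos]
    rw [(h5 v ω κ hv h1 h2).2.2 _ hv1 hv2, h]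
  · refine Finset.sum_eq_zero fun κ hκ => ?_
    obtain ⟨h1, h2⟩ := Finset.mem_filter.1 hκ
    rw [if_neg]
    rw [(h5 v ω κ hv h1 h2).2.2 _ hv1 hv2]
    exact h

omit [Fintype Ω] in
theorem cp_Op_Z
    (h5 : ∀ v ω κ, v ≠ 0 → κ ∈ S.comps ω → S.ch κ ω = -v →
      S.Tot (S.fl κ ω) = S.Tot ω + 2 • v ∧ S.Hh v (S.fl κ ω) = S.Hh v ω + 2 ∧
      ∀ w, w ≠ v → w ≠ -v → S.Hh w (S.fl κ ω) = S.Hh w ω)
    (f : Ω → ℂ) (r : ℤ) :
    S.Op (1, 1) (cp S f (r + 2)) = cp S (S.Op (1, 1) f) r := by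
  have hv : ((1, 1) : ℤ × ℤ) ≠ 0 := by simp
  funext ω
  simp only [FS.Op, LinearMap.coe_mk, AddHom.coe_mk, cp]
  split_ifs with h
  · refine Finset.sum_congr rfl fun κ hκ => ?_
    obtain ⟨h1, h2⟩ := Finset.mem_filter.1 hκ
    rw [if_pos]
    rw [(h5 _ ω κ hv h1 h2).2.1, h]
  · refine Finset.sum_eq_zero fun κ hκ => ?_
    obtain ⟨h1, h2⟩ := Finset.mem_filter.1 hκ
    rw [if_neg]
    rw [(h5 _ ω κ hv h1 h2).2.1]
    intro h3
    exact h (by linarith)

omit [Fintype Ω] in
theorem Hh_neg (v : ℤ × ℤ) (ω : Ω) : S.Hh (-v) ω = - S.Hh v ω := by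
  unfold FS.Hh
  rw [neg_neg]
  ring

theorem stmt_CHAIN (hF : Stmt_FOPS) (hL : Stmt_HL) : Stmt_CHAIN := by
  intro Ω K _ S hch u hu f hf heq
  obtain ⟨-, -, hcomm, -, h5, -, -, -, htot⟩ := hF Ω K S
  have htot := htot hch
  by_contra hne
  have hex : ∃ ω, f ω ≠ 0 := by
    by_contra h
    push Not at h
    exact hne (funext h)
  obtain ⟨ω₀, hω₀⟩ := hex
  set F := Finset.univ.filter (fun ω => f ω ≠ 0) with hFdef
  have hFne : F.Nonempty := ⟨ω₀, by simp [hFdef, hω₀]⟩
  obtain ⟨ωR, hωR, hR⟩ := Finset.exists_max_image F (S.Hh (1, 1)) hFne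
  obtain ⟨ωρ, hωρ, hρ⟩ := Finset.exists_min_image F (S.Hh (1, 1)) hFne
  set R := S.Hh (1, 1) ωR with hRdef
  set ρ := S.Hh (1, 1) ωρ with hρdef
  have hfR : cp S f R ≠ 0 := by
    intro h
    have := congrFun h ωR
    simp only [cp, ← hRdef, if_true, Pi.zero_apply] at this
    exact (Finset.mem_filter.1 hωR).2 this
  have hfρ : cp S f ρ ≠ 0 := by
    intro h
    have := congrFun h ωρ
    simp only [cp, ← hρdef, if_true, Pi.zero_apply] at this
    exact (Finset.mem_filter.1 hωρ).2 this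
  have hgt : ∀ r, R < r → cp S f r = 0 := by
    intro r hr
    funext ω
    simp only [cp, Pi.zero_apply]
    split_ifs with h
    · by_contra h0
      have := hR ω (by simp [hFdef, h0])
      omega
    · rfl
  have hlt : ∀ r, r < ρ → cp S f r = 0 := by
    intro r hr
    funext ω
    simp only [cp, Pi.zero_apply]
    split_ifs with h
    · by_contra h0
      have := hρ ω (by simp [hFdef, h0])
      omega
    · rfl
  -- weights
  have hwt : ∀ r ω, cp S f r ω ≠ 0 → S.Hh (1, 0) ω = 2 - r ∧ S.Hh (0, -1) ω = r - u ∧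
      S.Hh (1, 1) ω = r := by
    intro r ω h
    simp only [cp] at h
    have h1 : S.Hh (1, 1) ω = r := by
      by_contra h2
      rw [if_neg h2] at h
      exact h rfl
    rw [if_pos h1] at h
    have h2 := hf ω h
    rw [htot ω, Prod.mk.injEq, h1] at h2
    have h3 : S.Hh (0, -1) ω = - S.Hh (0, 1) ω := by
      have := Hh_neg S (0, 1) ω
      simpa using this
    refine ⟨by linarith [h2.1], by rw [h3]; linarith [h2.2], h1⟩
  -- the equation by components
  have hX0 : ((1, 0) : ℤ × ℤ) ≠ 0 := by simp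
  have hY0 : ((0, -1) : ℤ × ℤ) ≠ 0 := by simp
  have hZ0 : ((1, 1) : ℤ × ℤ) ≠ 0 := by simp
  have hcomp : ∀ r, S.Op (1, 0) (cp S f r) + S.Op (0, -1) (S.Op (1, 1) (cp S f (r + 2))) = 0 := by
    intro r
    rw [cp_Op_Z S h5, cp_Op_other S h5 (1, 0) hX0 (by simp) (by simp),
      cp_Op_other S h5 (0, -1) hY0 (by simp) (by simp)]
    funext ω
    have := congrFun heq ω
    simp only [Pi.add_apply, Pi.zero_apply] at this
    simp only [Pi.add_apply, cp, Pi.zero_apply]
    split_ifs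
    · exact this
    · simp
  -- operators
  set A := S.Op (1, 0) with hA
  set B := S.Op (0, -1) with hB
  set Z := S.Op (1, 1) with hZ
  have cAB : ∀ g, A (B g) = B (A g) := fun g => hcomm _ _ g hX0 hY0 (by simp)
  have cAZ : ∀ g, A (Z g) = Z (A g) := fun g => hcomm _ _ g hX0 hZ0 (by simp)
  have cBZ : ∀ g, B (Z g) = Z (B g) := fun g => hcomm _ _ g hY0 hZ0 (by simp)
  have hcomp' : ∀ r, A (cp S f r) = - B (Z (cp S f (r + 2))) := fun r =>
    eq_neg_of_add_eq_zero_left (hcomp r)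
  -- from the top
  have top : ∀ j : ℕ, ∀ r : ℤ, R < r + 2 * ((j : ℤ) + 1) → (A ^ (j + 1)) (cp S f r) = 0 := by
    intro j
    induction j with
    | zero =>
      intro r hr
      rw [zero_add, pow_one, hcomp', hgt (r + 2) (by push_cast at hr; linarith)]
      simp
    | succ j ih =>
      intro r hr
      have h1 := ih (r + 2) (by push_cast at hr ⊢; linarith)
      have h2 : ∀ k : ℕ, ∀ g, (A ^ k) (B (Z g)) = B (Z ((A ^ k) g)) := by
        intro k
        induction k with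
        | zero => intro g; simp
        | succ k ihk =>
          intro g
          rw [pow_succ', Module.End.mul_apply, ihk, cAB, cAZ, Module.End.mul_apply]
      rw [pow_succ, Module.End.mul_apply, hcomp', map_neg, h2, h1]
      simp
  have hsupp : ∀ r, cp S f r ≠ 0 → 2 ≤ r ∨ 4 ≤ r + R := by
    intro r hr
    by_contra hcon
    push Not at hcon
    obtain ⟨h1, h2⟩ := hcon
    apply hr
    obtain ⟨k, hk⟩ : ∃ k : ℕ, (k : ℤ) + 1 = 2 - r := ⟨(1 - r).toNat, by
      rw [Int.toNat_of_nonneg (by linarith)]; ring⟩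
    exact hL Ω K S (1, 0) (2 - r) (k + 1) hX0 (by push_cast; linarith) (cp S f r)
      (fun ω h => (hwt r ω h).1) (top k r (by linarith))
  have hR2 : 2 ≤ R := by
    rcases hsupp R hfR with h | h <;> linarith
  have hρR : 4 ≤ ρ + R := by
    rcases hsupp ρ hfρ with h | h <;> linarith
  -- from below
  have bot : ∀ j : ℕ, ∀ r : ℤ, r < ρ + 2 * ((j : ℤ) + 1) →
      ((B * Z) ^ (j + 1)) (cp S f r) = 0 := by
    intro j
    induction j with
    | zero =>
      intro r hr
      have h1 := hcomp (r - 2)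
      rw [sub_add_cancel, hlt (r - 2) (by push_cast at hr; linarith), map_zero, zero_add] at h1
      rw [zero_add, pow_one, Module.End.mul_apply]
      exact h1
    | succ j ih =>
      intro r hr
      have h1 := ih (r - 2) (by push_cast at hr ⊢; linarith)
      have h2 : ∀ k : ℕ, ∀ g, ((B * Z) ^ k) (A g) = A (((B * Z) ^ k) g) := by
        intro k
        induction k with
        | zero => intro g; simp
        | succ k ihk =>
          intro g
          rw [pow_succ', Module.End.mul_apply, ihk, Module.End.mul_apply, ← cAZ, ← cAB,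
            Module.End.mul_apply, Module.End.mul_apply]
      have h3 := hcomp (r - 2)
      rw [sub_add_cancel] at h3
      have h4 : (B * Z) (cp S f r) = - A (cp S f (r - 2)) := by
        rw [Module.End.mul_apply]
        exact eq_neg_of_add_eq_zero_right h3
      rw [pow_succ, Module.End.mul_apply, h4, map_neg, h2, h1]
      simp
  have hBZ : ∀ k : ℕ, ∀ g, ((B * Z) ^ k) g = (Z ^ k) ((B ^ k) g) := by
    intro k
    have hc : Commute B Z := by
      refine LinearMap.ext fun g => ?_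
      exact cBZ g
    intro g
    rw [hc.mul_pow, (hc.pow_pow k k).eq, Module.End.mul_apply]
  obtain ⟨k, hk⟩ : ∃ k : ℕ, (k : ℤ) + 1 = R - 1 := ⟨(R - 2).toNat, by
    rw [Int.toNat_of_nonneg (by linarith)]; ring⟩
  have h6 := bot k R (by linarith)
  rw [hBZ] at h6
  -- the support of `B ^ k f_R`
  have h7 : ∀ k : ℕ, ∃ g : Ω → ℂ, (B ^ k) (cp S f R) = cp S g R := by
    intro k
    induction k with
    | zero => exact ⟨f, by simp⟩
    | succ k ihk =>
      obtain ⟨g, hg⟩ := ihk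
      refine ⟨B g, ?_⟩
      rw [pow_succ', Module.End.mul_apply, hg, hB,
        cp_Op_other S h5 (0, -1) hY0 (by simp) (by simp)]
  have h8 : (B ^ (k + 1)) (cp S f R) = 0 := by
    refine hL Ω K S (1, 1) R (k + 1) hZ0 (by push_cast; linarith) _ ?_ h6
    intro ω h
    obtain ⟨g, hg⟩ := h7 (k + 1)
    rw [hg] at h
    simp only [cp] at h
    by_contra h2
    rw [if_neg h2] at h
    exact h rfl
  apply hfR
  exact hL Ω K S (0, -1) (R - u) (k + 1) hY0 (by push_cast; linarith) _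
    (fun ω h => (hwt R ω h).2.1) h8

end Pool.RookLC.helper66
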